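import Mathlib

/-!
# The Cauchy-Riemann equation on domains in `ℂⁿ`

The definitions used in the statement: domains with real-analytic boundary, pseudoconvexity,
`∂̄`-closed `(0,1)`-forms, weak solutions of the equation `∂̄u = f`, Hölder norms.
-/

set_option autoImplicit false

namespace Pool.Agent.Lib.MP_340d6a_an

open MeasureTheory Set
open scoped ContDiff ENNReal

/-- The space `ℂⁿ` with the Euclidean norm. -/
abbrev Cn (n : ℕ) : Type := EuclideanSpace ℂ (Fin n)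

variable {n : ℕ}

/-- The derivative `∂φ/∂z̄_j = (∂φ/∂x_j + i ∂φ/∂y_j) / 2`. -/
noncomputable def dbar (j : Fin n) (φ : Cn n → ℂ) (z : Cn n) : ℂ :=
  (fderiv ℝ φ z (EuclideanSpace.single j 1) +
    Complex.I * fderiv ℝ φ z (EuclideanSpace.single j Complex.I)) / 2

/-- A test function on `Ω`: smooth, with compact support contained in `Ω`. -/
def IsTest (Ω : Set (Cn n)) (φ : Cn n → ℂ) : Prop :=
  ContDiff ℝ ∞ φ ∧ HasCompactSupport φ ∧ tsupport φ ⊆ Ω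

/-- The `(0,1)`-form `∑ f_j dz̄_j` is `∂̄`-closed on `Ω` (in the sense of distributions). -/
def DbarClosed (Ω : Set (Cn n)) (f : Cn n → Cn n) : Prop :=
  ∀ φ, IsTest Ω φ → ∀ j k,
    ∫ z in Ω, f z j * dbar k φ z = ∫ z in Ω, f z k * dbar j φ z

/-- `∂̄u = ∑ f_j dz̄_j` on `Ω` (in the sense of distributions). -/
def DbarEq (Ω : Set (Cn n)) (u : Cn n → ℂ) (f : Cn n → Cn n) : Prop :=
  ∀ φ, IsTest Ω φ → ∀ j,
    ∫ z in Ω, u z * dbar j φ z = - ∫ z in Ω, f z j * φ z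

/-- The supremum of the norm over `Ω`. -/
noncomputable def supNorm {F : Type} [NormedAddCommGroup F] (Ω : Set (Cn n)) (f : Cn n → F) :
    ℝ≥0∞ :=
  ⨆ z ∈ Ω, ‖f z‖ₑ

/-- The Hölder norm: the supremum of `|u|` plus the supremum of `|u(z) - u(w)| / |z - w|^ε`. -/
noncomputable def holderNorm (ε : ℝ) (Ω : Set (Cn n)) (u : Cn n → ℂ) : ℝ≥0∞ :=
  supNorm Ω u + ⨆ z ∈ Ω, ⨆ w ∈ Ω, ⨆ _ : z ≠ w, ‖u z - u w‖ₑ / ‖z - w‖ₑ ^ ε

/-- `∂̄` can be solved with Hölder estimates on `Ω`. -/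
def HolderEstimates (Ω : Set (Cn n)) : Prop :=
  ∃ ε : ℝ, 0 < ε ∧ ε < 1 ∧ ∃ C : ℝ, 0 < C ∧
    ∀ f : Cn n → Cn n, ContinuousOn f Ω → supNorm Ω f < ⊤ → DbarClosed Ω f →
      ∃ u : Cn n → ℂ, DbarEq Ω u f ∧ holderNorm ε Ω u ≤ ENNReal.ofReal C * supNorm Ω f

/-- The boundary of `Ω` is a real-analytic hypersurface: near each of its points `Ω` is given by
`r < 0` for a real-analytic function `r` with `dr ≠ 0` on the boundary. -/
def RealAnalyticBoundary (Ω : Set (Cn n)) : Prop :=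
  ∀ p ∈ frontier Ω, ∃ U : Set (Cn n), IsOpen U ∧ p ∈ U ∧ ∃ r : Cn n → ℝ,
    AnalyticOnNhd ℝ r U ∧ (∀ z ∈ U, z ∈ Ω ↔ r z < 0) ∧ ∀ z ∈ U ∩ frontier Ω, fderiv ℝ r z ≠ 0

/-- The function `φ` is continuous and plurisubharmonic on `Ω`: its value at the centre of each
complex disc contained in `Ω` is at most its mean over the boundary of the disc. -/
def PlurisubharmonicOn (φ : Cn n → ℝ) (Ω : Set (Cn n)) : Prop :=
  ContinuousOn φ Ω ∧ ∀ z v : Cn n, (∀ ζ : ℂ, ‖ζ‖ ≤ 1 → z + ζ • v ∈ Ω) →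
    φ z ≤ Real.circleAverage (fun ζ => φ (z + ζ • v)) 0 1

/-- `Ω` is pseudoconvex: it has a continuous plurisubharmonic exhaustion function. -/
def Pseudoconvex (Ω : Set (Cn n)) : Prop :=
  ∃ φ : Cn n → ℝ, PlurisubharmonicOn φ Ω ∧ ∀ c : ℝ, IsCompact {z ∈ Ω | φ z ≤ c}

/-- The function `|z₁⁴ - z₂⁴|² + (|z₁|² + |z₂|²)¹⁶ + |z₃|² + ... + |z_n|²` on `ℂⁿ`, `n = m + 3`
(the indices of the coordinates are `0, ..., m + 2` here). -/
noncomputable def psi {m : ℕ} (z : Cn (m + 3)) : ℝ :=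
  ‖z 0 ^ 4 - z 1 ^ 4‖ ^ 2 + (‖z 0‖ ^ 2 + ‖z 1‖ ^ 2) ^ 16 + ∑ i : Fin (m + 1), ‖z i.succ.succ‖ ^ 2

/-- The domain `|z₁⁴ - z₂⁴|² + (|z₁|² + |z₂|²)¹⁶ + |z₃|² + ... + |z_n|² < 1` in `ℂⁿ`,
`n = m + 3`. -/
def Omega (m : ℕ) : Set (Cn (m + 3)) := {z | psi z < 1}

end Pool.Agent.Lib.MP_340d6a_an
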