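import Pool.Agent.Lib.MP_340d6a_an.Mg.G001
import Pool.Agent.Lib.MP_340d6a_an.Mg.G002
import Pool.Agent.Lib.MP_340d6a_an.Mg.G003

/-!
# The estimate from below and the theorem
-/

set_option autoImplicit false

namespace Pool.Agent.Lib.MP_340d6a_an

open MeasureTheory Set Metric
open scoped ContDiff ENNReal ComplexConjugate

variable {m : ℕ}

theorem isBounded_Omega : Bornology.IsBounded (Omega m) :=
  (isBounded_of_psi_le (m := m) 1).subset fun z hz => le_of_lt (show psi z < 1 from hz)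

theorem dbarEq_usol' (ρ s : ℝ) (hρ : 0 < ρ) :
    DbarEq (Omega m) (usol ρ s) (fform ρ s) :=
  dbarEq_usol ρ s (contDiff_usol ρ s hρ) (dbar_usol ρ s hρ)
    fun g φ hg hφ j => integral_mul_dbar (Omega m) g φ hg hφ j

theorem dbarClosed_fform' (ρ s : ℝ) (hρ : 0 < ρ) :
    DbarClosed (Omega m) (fform ρ s) :=
  dbarClosed_fform ρ s (contDiff_fcoef ρ s hρ) (fun k z hk => dbar_fcoef ρ s hρ k hk z)
    fun g φ hg hφ j => integral_mul_dbar (Omega m) g φ hg hφ j

theorem isFiniteMeasure_restrict : IsFiniteMeasure (volume.restrict (Omega m)) := by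
  have hfin : volume (Omega m) < ⊤ := isBounded_Omega.measure_lt_top
  have := Fact.mk hfin
  infer_instance

theorem continuous_dbar {φ : Cn (m + 3) → ℂ} (hφ : ContDiff ℝ ∞ φ) (j : Fin (m + 3)) :
    Continuous (dbar j φ) := by
  have h1 : Continuous (fderiv ℝ φ) := hφ.continuous_fderiv (by simp)
  unfold dbar
  fun_prop

theorem hasCompactSupport_dbar {φ : Cn (m + 3) → ℂ} (hφ : HasCompactSupport φ)
    (j : Fin (m + 3)) : HasCompactSupport (dbar j φ) := by
  refine (hφ.fderiv (𝕜 := ℝ)).mono' ?_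
  refine subset_trans ?_ (subset_tsupport _)
  intro z hz
  rw [Function.mem_support] at hz ⊢
  intro h
  apply hz
  simp [dbar, h]

theorem norm_le_of_integrable {φ : Cn (m + 3) → ℂ} (hφ : Continuous φ)
    (hc : HasCompactSupport φ) : ∃ M : ℝ, 0 ≤ M ∧ ∀ z, ‖φ z‖ ≤ M := by
  obtain ⟨M, hM⟩ := hφ.bounded_above_of_compact_support hc
  exact ⟨M, (norm_nonneg _).trans (hM 0), hM⟩

theorem integrable_usol_sub (u : Cn (m + 3) → ℂ) (B ρ s : ℝ) (hρ : 0 < ρ)
    (hu : ContinuousOn u (Omega m)) (hB : ∀ z ∈ Omega m, ‖u z‖ ≤ B) :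
    Integrable (fun z => usol ρ s z) (volume.restrict (Omega m)) ∧
      Integrable u (volume.restrict (Omega m)) := by
  have hmeas : MeasurableSet (Omega m) := isOpen_Omega.measurableSet
  have := isFiniteMeasure_restrict (m := m)
  have hcl : IsCompact (closure (Omega m)) := isBounded_Omega.isCompact_closure
  refine ⟨?_, ?_⟩
  · exact ((contDiff_usol (m := m) ρ s hρ).continuous.continuousOn.integrableOn_compact hcl).mono_set
      subset_closure
  · refine Integrable.of_bound (hu.aestronglyMeasurable hmeas) B ?_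
    exact (ae_restrict_iff' hmeas).2 (Filter.Eventually.of_forall hB)

/-- The difference of two solutions, extended by zero. -/
theorem integrable_diff (u : Cn (m + 3) → ℂ) (B ρ s : ℝ) (hρ : 0 < ρ)
    (hu : ContinuousOn u (Omega m)) (hB : ∀ z ∈ Omega m, ‖u z‖ ≤ B) :
    Integrable ((Omega m).indicator fun z => usol ρ s z - u z) := by
  have hmeas : MeasurableSet (Omega m) := isOpen_Omega.measurableSet
  rw [integrable_indicator_iff hmeas]
  obtain ⟨h1, h2⟩ := integrable_usol_sub u B ρ s hρ hu hB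
  exact h1.sub h2

theorem integral_diff (u : Cn (m + 3) → ℂ) (B ρ s : ℝ) (hρ : 0 < ρ)
    (hu : ContinuousOn u (Omega m)) (hB : ∀ z ∈ Omega m, ‖u z‖ ≤ B)
    (hdb : DbarEq (Omega m) u (fform ρ s)) (φ : Cn (m + 3) → ℂ) (hφ : IsTest (Omega m) φ)
    (j : Fin (m + 3)) :
    ∫ z, (Omega m).indicator (fun z => usol ρ s z - u z) z * dbar j φ z = 0 := by
  have hmeas : MeasurableSet (Omega m) := isOpen_Omega.measurableSet
  obtain ⟨h1, h2⟩ := integrable_usol_sub u B ρ s hρ hu hB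
  have e1 : ∀ z, (Omega m).indicator (fun z => usol ρ s z - u z) z * dbar j φ z =
      (Omega m).indicator (fun z => (usol ρ s z - u z) * dbar j φ z) z := by
    intro z
    by_cases hz : z ∈ Omega m
    · simp [hz]
    · simp [hz]
  simp_rw [e1]
  rw [integral_indicator hmeas]
  have hc := continuous_dbar hφ.1 j
  obtain ⟨M, -, hM⟩ := norm_le_of_integrable hc (hasCompactSupport_dbar hφ.2.1 j)
  have i1 : Integrable (fun z => usol ρ s z * dbar j φ z) (volume.restrict (Omega m)) :=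
    h1.mul_bdd (c := M) hc.aestronglyMeasurable (Filter.Eventually.of_forall hM)
  have i2 : Integrable (fun z => u z * dbar j φ z) (volume.restrict (Omega m)) :=
    h2.mul_bdd (c := M) hc.aestronglyMeasurable (Filter.Eventually.of_forall hM)
  simp_rw [sub_mul]
  rw [integral_sub i1 i2, hdb φ hφ j, dbarEq_usol' ρ s hρ φ hφ j, sub_self]

theorem continuous_dir_line (k : ℕ) (p : Cn (m + 3)) :
    Continuous fun l : ℂ => p + l • dir (m := m) k := by
  fun_prop

/-- The union of the four closed discs. -/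
theorem isCompact_discs (p : Cn (m + 3)) (R : ℝ) :
    IsCompact (⋃ k ∈ Finset.range 4, (fun l : ℂ => p + l • dir (m := m) k) '' closedBall 0 R) := by
  refine (Finset.range 4).isCompact_biUnion fun k _ => ?_
  exact (isCompact_closedBall 0 R).image (continuous_dir_line k p)

theorem lower_bound_aux (τ : ℝ) (hτ : 0 < τ) (hτ1 : τ ≤ 1 / 2) (u : Cn (m + 3) → ℂ) (B : ℝ)
    (hu : ContinuousOn u (Omega m)) (hB : ∀ z ∈ Omega m, ‖u z‖ ≤ B)
    (hdb : DbarEq (Omega m) u (fform (τ ^ 2) (τ ^ 16))) (R : ℝ) (hR : 0 < R)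
    (hRτ : 2 * R ^ 2 = τ) (η : ℝ) (hη : 0 < η) :
    Real.exp (-1) * (R ^ 2 / (R ^ 2 + (τ ^ 2) ^ 2)) * R ^ 2 ≤ B + η := by
  have hρ : 0 < τ ^ 2 := by positivity
  have hs : τ ^ 16 ≠ 0 := by positivity
  set U : Cn (m + 3) → ℂ := usol (τ ^ 2) (τ ^ 16) with hU
  set H : Cn (m + 3) → ℂ := (Omega m).indicator (fun z => U z - u z) with hHdef
  set p : Cn (m + 3) := EuclideanSpace.single (2 : Fin (m + 3)) (1 - ((τ ^ 16 : ℝ) : ℂ)) with hp
  set K : Set (Cn (m + 3)) :=
    ⋃ k ∈ Finset.range 4, (fun l : ℂ => p + l • dir (m := m) k) '' closedBall 0 R with hK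
  have hKc : IsCompact K := isCompact_discs p R
  have hmemK : ∀ k < 4, ∀ l : ℂ, ‖l‖ ≤ R → p + l • dir k ∈ K := by
    intro k hk l hl
    rw [hK]
    simp only [Set.mem_iUnion]
    exact ⟨k, Finset.mem_range.2 hk, l, by simpa using hl, rfl⟩
  have hKΩ : K ⊆ Omega m := by
    intro x hx
    rw [hK] at hx
    simp only [Set.mem_iUnion] at hx
    obtain ⟨k, hk, l, hl, rfl⟩ := hx
    have hl' : ‖l‖ ≤ R := by simpa using hl
    have : 2 * ‖l‖ ^ 2 ≤ τ := by nlinarith [norm_nonneg l]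
    have h3 := disc_mem (m := m) τ hτ hτ1 k l this
    simpa [hp] using h3
  obtain ⟨δ₀, hδ₀, hδΩ⟩ := hKc.exists_cthickening_subset_open isOpen_Omega hKΩ
  have hUc : Continuous U := (contDiff_usol (m := m) _ _ hρ).continuous
  have huc := hKc.uniformContinuousAt_of_continuousAt U (fun a _ => hUc.continuousAt)
    (Metric.dist_mem_uniformity hη)
  obtain ⟨δ₁, hδ₁, hδU⟩ := Metric.mem_uniformity_dist.1 huc
  set δ : ℝ := min (δ₀ / 2) (δ₁ / 2) with hδ
  have hδpos : 0 < δ := by positivity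
  have hδ0 : δ ≤ δ₀ / 2 := min_le_left _ _
  have hδ1 : δ ≤ δ₁ / 2 := min_le_right _ _
  obtain ⟨g, hg, hgc, hgs, hg1, hg2⟩ := exists_mollifier (n := m + 3) δ hδpos
  have hHint : Integrable H := integrable_diff u B _ _ hρ hu hB
  have hH0 : ∀ φ, IsTest (Omega m) φ → ∀ j, ∫ z, H z * dbar j φ z = 0 := fun φ hφ j =>
    integral_diff u B _ _ hρ hu hB hdb φ hφ j
  set h : Cn (m + 3) → ℂ := fun x => ∫ t, H t * g (x - t) with hh
  have hhs : ContDiff ℝ ∞ h := contDiff_conv H hHint g hg hgc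
  set W : Set (Cn (m + 3)) := thickening (δ₀ / 2) K with hW
  have hWball : ∀ x ∈ W, closedBall x δ ⊆ Omega m := by
    intro x hx y hy
    apply hδΩ
    obtain ⟨z, hz, hxz⟩ := Metric.mem_thickening_iff.1 hx
    refine Metric.mem_cthickening_of_dist_le y z δ₀ K hz ?_
    have := dist_triangle y x z
    have h4 : dist y x ≤ δ := hy
    linarith
  have hKW : K ⊆ W := Metric.self_subset_thickening (by positivity) K
  have hpK : p ∈ K := by
    have := hmemK 0 (by norm_num) 0 (by simpa using hR.le)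
    simpa using this
  have hconv : ∀ x v : Cn (m + 3), fderiv ℝ h x v = ∫ t, H t * fderiv ℝ g (x - t) v :=
    fun x v => fderiv_conv H hHint g hg hgc x v
  have h0 : ∀ x ∈ W, ∀ j, dbar j h x = 0 := fun x hx j =>
    dbar_conv (Omega m) H hHint hH0 g hg δ hgs hconv x (hWball x hx) j
  have hlin0 : ∀ x ∈ W, ∀ (ζ : ℂ) (v : Cn (m + 3)), fderiv ℝ h x (ζ • v) = ζ * fderiv ℝ h x v :=
    fun x hx ζ v => fderiv_smul_of_dbar h x (h0 x hx) ζ v
  have hlin1 : ∀ (w : Cn (m + 3)) (ζ : ℂ) (v : Cn (m + 3)),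
      fderiv ℝ (fun x => fderiv ℝ h x w) p (ζ • v) =
        ζ * fderiv ℝ (fun x => fderiv ℝ h x w) p v := by
    intro w ζ v
    refine fderiv_smul_of_dbar _ p (fun j => ?_) ζ v
    have e1 : (fun x => fderiv ℝ h x w) = fun x => ∫ t, H t * (fun y => fderiv ℝ g y w) (x - t) := by
      funext x
      exact hconv x w
    rw [e1]
    have hg' : ContDiff ℝ ∞ fun y => fderiv ℝ g y w :=
      (hg.fderiv_right (m := ∞) (by simp)).clm_apply contDiff_const
    have hgs' : tsupport (fun y => fderiv ℝ g y w) ⊆ closedBall 0 δ :=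
      (tsupport_fderiv_apply_subset ℝ w).trans hgs
    have hgc' : HasCompactSupport fun y => fderiv ℝ g y w := hgc.fderiv_apply ℝ w
    exact dbar_conv (Omega m) H hHint hH0 _ hg' δ hgs'
      (fun x v => fderiv_conv H hHint _ hg' hgc' x v) p (hWball p (hKW hpK)) j
  have h2 := second_deriv_zero h hhs p W Metric.isOpen_thickening (hKW hpK) hlin0 hlin1
  set c : ℝ := Real.exp (-1) * (R ^ 2 / (R ^ 2 + (τ ^ 2) ^ 2)) with hc
  have hc0 : 0 ≤ c := by positivity
  have key := quadratic_part h hhs p R (B + η) hR W Metric.isOpen_thickening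
    (fun k hk l hl => hKW (hmemK k hk l hl)) hlin0 h2 (c : ℂ) (by
      intro k hk l hl
      have hx : p + l • dir k ∈ K := hmemK k hk l hl.le
      have e2 : U (p + l • dir k) = (c : ℂ) * Complex.I ^ (3 * k) * l ^ 2 := by
        have := usol_disc (m := m) (τ ^ 2) (τ ^ 16) R hs hR k l hl
        rw [hU, hp, this]
      rw [← e2]
      refine norm_conv_sub_le H U hHint g hg.continuous hgc δ hgs hg1 hg2 _ B η ?_ ?_
      · intro t ht
        have htΩ : t ∈ Omega m := hWball _ (hKW hx) ht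
        rw [hHdef, Set.indicator_of_mem htΩ]
        have : U t - u t - U t = - u t := by ring
        rw [this, norm_neg]
        exact hB t htΩ
      · intro t ht
        have h5 : dist (p + l • dir k) t < δ₁ := by
          rw [dist_comm]
          have : dist t (p + l • dir k) ≤ δ := ht
          linarith
        have h6 : dist (U (p + l • dir k)) (U t) < η := hδU h5 hx
        rw [dist_comm, dist_eq_norm] at h6
        exact h6.le)
  rw [Complex.norm_real, Real.norm_of_nonneg hc0] at key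
  exact key

theorem lower_bound (τ : ℝ) (hτ : 0 < τ) (hτ1 : τ ≤ 1 / 2) (u : Cn (m + 3) → ℂ) (B : ℝ)
    (hu : ContinuousOn u (Omega m)) (hB : ∀ z ∈ Omega m, ‖u z‖ ≤ B)
    (hdb : DbarEq (Omega m) u (fform (τ ^ 2) (τ ^ 16))) : τ / 12 ≤ B := by
  set R : ℝ := Real.sqrt (τ / 2) with hRdef
  have hR : 0 < R := Real.sqrt_pos.2 (by positivity)
  have hR2 : R ^ 2 = τ / 2 := Real.sq_sqrt (by positivity)
  have h1 : Real.exp (-1) * (R ^ 2 / (R ^ 2 + (τ ^ 2) ^ 2)) * R ^ 2 ≤ B :=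
    le_of_forall_pos_le_add fun η hη =>
      lower_bound_aux τ hτ hτ1 u B hu hB hdb R hR (by rw [hR2]; ring) η hη
  refine le_trans ?_ h1
  rw [hR2]
  have he : (1 : ℝ) / 3 ≤ Real.exp (-1) := by
    rw [Real.exp_neg, one_div]
    exact inv_anti₀ (Real.exp_pos 1) (by have := Real.exp_one_lt_d9; linarith)
  have h3 : (4 : ℝ) / 5 ≤ τ / 2 / (τ / 2 + (τ ^ 2) ^ 2) := by
    rw [le_div_iff₀ (by positivity)]
    have h4 : τ ^ 3 ≤ 1 / 8 := by
      calc τ ^ 3 ≤ (1 / 2) ^ 3 := by gcongr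
        _ = 1 / 8 := by norm_num
    have h5 : (τ ^ 2) ^ 2 = τ ^ 3 * τ := by ring
    rw [h5]
    nlinarith
  have h6 : (1 : ℝ) / 3 * (4 / 5) ≤ Real.exp (-1) * (τ / 2 / (τ / 2 + (τ ^ 2) ^ 2)) := by
    gcongr
  calc τ / 12 ≤ 1 / 3 * (4 / 5) * (τ / 2) := by linarith
    _ ≤ _ := by gcongr

/-! ### The theorem -/

theorem norm_fform (ρ s : ℝ) (z : Cn (m + 3)) : ‖fform ρ s z‖ = ‖fcoef ρ s z‖ := by
  simp [fform]

theorem supNorm_fform_le (τ : ℝ) (hτ : 0 < τ) :
    supNorm (Omega m) (fform (m := m) (τ ^ 2) (τ ^ 16)) ≤ ENNReal.ofReal (4 * τ ^ 2) := by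
  refine iSup₂_le fun z hz => ?_
  rw [← ofReal_norm_eq_enorm, norm_fform]
  apply ENNReal.ofReal_le_ofReal
  have h := norm_fcoef_le (τ ^ 2) (by positivity) z hz
  have e : (τ ^ 2) ^ 8 = τ ^ 16 := by ring
  rwa [e] at h

theorem norm_le_of_supNorm_le {F : Type} [NormedAddCommGroup F] {n : ℕ} (Ω : Set (Cn n))
    (u : Cn n → F) (B : ℝ) (hB : 0 ≤ B) (h : supNorm Ω u ≤ ENNReal.ofReal B) :
    ∀ z ∈ Ω, ‖u z‖ ≤ B := by
  intro z hz
  have h1 : ‖u z‖ₑ ≤ ENNReal.ofReal B := le_trans (le_iSup₂ (f := fun z _ => ‖u z‖ₑ) z hz) h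
  rw [← ofReal_norm_eq_enorm] at h1
  exact (ENNReal.ofReal_le_ofReal_iff hB).1 h1

/-- There is no estimate for the supremum norm. -/
theorem no_supNorm_estimate (C : ℝ) : ∃ f : Cn (m + 3) → Cn (m + 3), ContDiff ℝ ∞ f ∧
    DbarClosed (Omega m) f ∧ supNorm (Omega m) f < ⊤ ∧
    ∀ u : Cn (m + 3) → ℂ, ContinuousOn u (Omega m) → DbarEq (Omega m) u f →
      ENNReal.ofReal C * supNorm (Omega m) f < supNorm (Omega m) u := by
  set τ : ℝ := 1 / (96 * (|C| + 1)) with hτdef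
  have hC : 0 ≤ |C| := abs_nonneg C
  have hτ : 0 < τ := by positivity
  have hτ1 : τ ≤ 1 / 2 := by
    rw [hτdef]
    apply one_div_le_one_div_of_le (by norm_num)
    nlinarith
  have hρ : 0 < τ ^ 2 := by positivity
  have hsup := supNorm_fform_le (m := m) τ hτ
  refine ⟨fform (τ ^ 2) (τ ^ 16), contDiff_fform _ _ hρ, dbarClosed_fform' _ _ hρ,
    lt_of_le_of_lt hsup ENNReal.ofReal_lt_top, fun u hu hdb => ?_⟩
  by_contra hlt
  rw [not_lt] at hlt
  have h1 : supNorm (Omega m) u ≤ ENNReal.ofReal (|C| * (4 * τ ^ 2)) := by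
    calc supNorm (Omega m) u ≤ ENNReal.ofReal C * supNorm (Omega m) (fform (τ ^ 2) (τ ^ 16)) := hlt
      _ ≤ ENNReal.ofReal |C| * ENNReal.ofReal (4 * τ ^ 2) := by
          gcongr
          exact le_abs_self C
      _ = ENNReal.ofReal (|C| * (4 * τ ^ 2)) := (ENNReal.ofReal_mul hC).symm
  have h2 := norm_le_of_supNorm_le _ u _ (by positivity) h1
  have h3 := lower_bound τ hτ hτ1 u _ hu h2 hdb
  have h4 : 96 * (|C| + 1) * τ = 1 := by
    rw [hτdef]
    field_simp
  nlinarith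

/-- A function with finite Hölder norm is continuous. -/
theorem continuousOn_of_holderNorm {n : ℕ} (Ω : Set (Cn n)) (u : Cn n → ℂ) (ε : ℝ) (hε : 0 < ε)
    (h : holderNorm ε Ω u < ⊤) : ContinuousOn u Ω := by
  set M : ℝ≥0∞ := ⨆ z ∈ Ω, ⨆ w ∈ Ω, ⨆ _ : z ≠ w, ‖u z - u w‖ₑ / ‖z - w‖ₑ ^ ε with hM
  have hMt : M < ⊤ := lt_of_le_of_lt le_add_self h
  have hb : ∀ z ∈ Ω, ∀ w ∈ Ω, edist (u z) (u w) ≤ M * edist z w ^ ε := by
    intro z hz w hw
    by_cases hzw : z = w
    · subst hzw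
      simp
    · have h1 : ‖u z - u w‖ₑ / ‖z - w‖ₑ ^ ε ≤ M := by
        refine le_trans ?_ (le_iSup₂ (f := fun z _ => ⨆ w ∈ Ω, ⨆ _ : z ≠ w,
          ‖u z - u w‖ₑ / ‖z - w‖ₑ ^ ε) z hz)
        refine le_trans ?_ (le_iSup₂ (f := fun w _ => ⨆ _ : z ≠ w,
          ‖u z - u w‖ₑ / ‖z - w‖ₑ ^ ε) w hw)
        exact le_iSup (fun _ : z ≠ w => ‖u z - u w‖ₑ / ‖z - w‖ₑ ^ ε) hzw
      rw [edist_eq_enorm_sub, edist_eq_enorm_sub]
      have h0 : ‖z - w‖ₑ ≠ 0 := by
        rw [enorm_ne_zero]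
        exact sub_ne_zero.2 hzw
      have h0t : ‖z - w‖ₑ ≠ ⊤ := enorm_ne_top
      refine (ENNReal.div_le_iff ?_ ?_).1 h1
      · intro h
        rw [ENNReal.rpow_eq_zero_iff] at h
        rcases h with ⟨h, -⟩ | ⟨h, -⟩
        · exact h0 h
        · exact h0t h
      · exact ENNReal.rpow_ne_top_of_nonneg hε.le h0t
  have hH : HolderOnWith M.toNNReal ⟨ε, hε.le⟩ u Ω := by
    intro z hz w hw
    have := hb z hz w hw
    rwa [ENNReal.coe_toNNReal hMt.ne]
  exact hH.continuousOn hε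

theorem not_holderEstimates : ¬ HolderEstimates (Omega m) := by
  rintro ⟨ε, hε, -, C, -, h⟩
  obtain ⟨f, hf, hcl, hsup, hno⟩ := no_supNorm_estimate (m := m) C
  obtain ⟨u, hu, hle⟩ := h f hf.continuous.continuousOn hsup hcl
  have hfin : holderNorm ε (Omega m) u < ⊤ :=
    lt_of_le_of_lt hle (ENNReal.mul_lt_top ENNReal.ofReal_lt_top hsup)
  have hc := continuousOn_of_holderNorm (Omega m) u ε hε hfin
  have h1 := hno u hc hu
  have h2 : supNorm (Omega m) u ≤ holderNorm ε (Omega m) u := le_self_add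
  exact absurd (h1.trans_le (h2.trans hle)) (lt_irrefl _)

theorem realAnalyticBoundary_Omega' : RealAnalyticBoundary (Omega m) :=
  realAnalyticBoundary_Omega analyticOnNhd_psi
    fun z hz => fderiv_psi_ne_zero analyticOnNhd_psi psi_smul z hz

theorem pseudoconvex_Omega' : Pseudoconvex (Omega m) :=
  pseudoconvex_Omega continuous_psi isBounded_of_psi_le
    (psi_le_circleAverage sq_norm_le_circleAverage)

end Pool.Agent.Lib.MP_340d6a_an
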